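import Pool.Agent.Lib.MP_e12dda_al.Ins.Main

/-!
# Fully transitive homogeneous groups with only scalar automorphisms, for every prime

The definitions are in `Pool.Agent.Lib.MP_e12dda_al.Ins.Defs`.
-/

set_option autoImplicit false

namespace Pool.Agent.Results.MP_e12dda_al.EveryPrime

open Pool.Agent.Lib.MP_e12dda_al.Ins

/-- For every prime `p` there is a homogeneous torsion-free group that is fully transitive but not
transitive, with finite `p`-heights and infinite `q`-heights for the primes `q ≠ p`, whose only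
automorphisms are multiplications by rational numbers prime to `p`, and whose endomorphism ring has
no zero divisors. -/
theorem result (p : ℕ) (hp : p.Prime) :
    ∃ (G : Type) (_ : AddCommGroup G), IsTorsionFreeGroup G ∧ IsHomogeneousGroup G ∧
      IsFullyTransitiveGroup G ∧ ¬ IsTransitiveGroup G ∧
      (∀ g : G, g ≠ 0 → height p g ≠ ⊤ ∧ ∀ q : ℕ, q.Prime → q ≠ p → height q g = ⊤) ∧
      (∀ α : G ≃+ G, ∃ m n : ℤ, ¬ (p : ℤ) ∣ m ∧ ¬ (p : ℤ) ∣ n ∧ ∀ g : G, n • α g = m • g) ∧
      (∀ φ ψ : G →+ G, (∀ g, φ (ψ g) = 0) → φ = 0 ∨ ψ = 0) :=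
  main_theorem p hp

end Pool.Agent.Results.MP_e12dda_al.EveryPrime
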